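import Pool.Agent.H12.UCR.Stmts4

/-!
# MP_e822af, board `ucr`, row CNV: convolution of invariant measures
-/

set_option autoImplicit false

open MeasureTheory Filter Topology

namespace Pool.UCR

theorem cnv_thm : CNVS := by
  intro p μ κ
  have hmeas : Measurable (fun z : UnitAddCircle × UnitAddCircle => z.1 + z.2) :=
    measurable_fst.add measurable_snd
  have hp : Measurable (fun x : UnitAddCircle => p • x) :=
    (continuous_const_smul p).measurable
  have hprob : IsProbabilityMeasure
      (((μ.1 : Measure UnitAddCircle).prod (κ.1 : Measure UnitAddCircle)).map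
        (fun z => z.1 + z.2)) := Measure.isProbabilityMeasure_map hmeas.aemeasurable
  have hinv : ((((μ.1 : Measure UnitAddCircle).prod (κ.1 : Measure UnitAddCircle)).map
        (fun z => z.1 + z.2))).map (fun x : UnitAddCircle => p • x) =
      ((μ.1 : Measure UnitAddCircle).prod (κ.1 : Measure UnitAddCircle)).map
        (fun z => z.1 + z.2) := by
    rw [Measure.map_map hp hmeas]
    have h1 : (fun x : UnitAddCircle => p • x) ∘
        (fun z : UnitAddCircle × UnitAddCircle => z.1 + z.2) =
        (fun z : UnitAddCircle × UnitAddCircle => z.1 + z.2) ∘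
          (Prod.map (fun x => p • x) (fun x => p • x)) := by
      funext z
      simp [smul_add]
    rw [h1, ← Measure.map_map hmeas (hp.prodMap hp), ← Measure.map_prod_map _ _ hp hp, μ.2, κ.2]
  refine ⟨⟨⟨_, hprob⟩, hinv⟩, fun j => ?_⟩
  show ∫ x, fourier (j : ℤ) x ∂(((μ.1 : Measure UnitAddCircle).prod
    (κ.1 : Measure UnitAddCircle)).map (fun z => z.1 + z.2)) = _
  rw [integral_map hmeas.aemeasurable (fourier (j : ℤ)).continuous.aestronglyMeasurable]
  have h2 : ∀ z : UnitAddCircle × UnitAddCircle,
      (fourier (j : ℤ) (z.1 + z.2) : ℂ) = fourier (j : ℤ) z.1 * fourier (j : ℤ) z.2 := by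
    intro z
    rw [fourier_apply, fourier_apply, fourier_apply, smul_add, AddCircle.toCircle_add,
      Circle.coe_mul]
  simp only [h2]
  exact integral_prod_mul (fun x => (fourier (j : ℤ) x : ℂ)) (fun x => (fourier (j : ℤ) x : ℂ))

end Pool.UCR
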